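import Pool.Agent.H673R2.Search
import Pool.Agent.NPC.Sat

/-!
# Coalition-exchange-stable matchings: definitions and the statements of the steps

Instances of the stable marriage problem, exchange-blocking coalitions, coalition-exchange-stable
matchings; the reduction from 3SAT; the statements (`S_...`) of the steps of the proof.
-/

set_option autoImplicit false

namespace Pool.Agent.W973.CES

open Pool.Agent.NPC Pool.Agent.H673R2

/-! ## Stable marriage instances -/

/-- Instances: the preference lists of the men and the preference lists of the women, most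
preferred partner first.  Men and women are numbered from `0`. -/
abbrev Inst : Type := List (List ℕ) × List (List ℕ)

/-- There are as many women as men, say `n`, and each preference list is a permutation of
`0, ..., n - 1`. -/
def Valid (I : Inst) : Prop := I.2.length = I.1.length ∧
  (∀ l ∈ I.1, l.Perm (List.range I.1.length)) ∧ ∀ l ∈ I.2, l.Perm (List.range I.1.length)

/-- Agents: `(true, i)` is man `i`, `(false, i)` is woman `i`. -/
abbrev Agt : Type := Bool × ℕ

/-- The preference list of an agent. -/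
def prefs (I : Inst) (a : Agt) : List ℕ := if a.1 then I.1.getD a.2 [] else I.2.getD a.2 []

/-- The partner of an agent in the matching where man `i` is matched with woman `M[i]`. -/
def partner (M : List ℕ) (a : Agt) : ℕ := if a.1 then M.getD a.2 0 else M.idxOf a.2

/-- `x` comes before `y` in the preference list `l`. -/
def Before (l : List ℕ) (x y : ℕ) : Prop := l.idxOf x < l.idxOf y

/-- `a` and `b` are of the same sex and `a` strictly prefers the partner of `b` to its own. -/
def Envy (I : Inst) (M : List ℕ) (a b : Agt) : Prop :=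
  a.1 = b.1 ∧ Before (prefs I a) (partner M b) (partner M a)

/-- The agents `a 0, ..., a (k - 1)` form an exchange-blocking coalition: `k ≥ 2`, they are
distinct, and `a i` strictly prefers the partner of `a (i + 1)` to its own, indices modulo `k`. -/
def Coalition (I : Inst) (M : List ℕ) (k : ℕ) (a : ZMod k → Agt) : Prop :=
  2 ≤ k ∧ Function.Injective a ∧ (∀ i, (a i).2 < I.1.length) ∧ ∀ i, Envy I M (a i) (a (i + 1))

/-- `M` is a coalition-exchange-stable matching of `I`. -/
def CES (I : Inst) (M : List ℕ) : Prop :=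
  M.Perm (List.range I.1.length) ∧ ¬ ∃ (k : ℕ) (a : ZMod k → Agt), Coalition I M k a

/-! ## The reduction from 3SAT -/

abbrev CNF : Type := List (Lit ℕ × Lit ℕ × Lit ℕ)

/-- The list of the literal occurrences. -/
def flat (φ : CNF) : List (Lit ℕ) := φ.flatMap fun c => [c.1, c.2.1, c.2.2]

/-- The number of literal occurrences. -/
def n3 (φ : CNF) : ℕ := (flat φ).length

/-- The literal of occurrence `i`. -/
def lit (φ : CNF) (i : ℕ) : Lit ℕ := (flat φ).getD i (true, 0)

/-- The gadget of the variable `v`. -/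
def gv (φ : CNF) (v : ℕ) : ℕ := n3 φ + ((flat φ).map Prod.snd).idxOf v

/-- The variable gadget of the variable of occurrence `i`. -/
def vr (φ : CNF) (i : ℕ) : ℕ := gv φ (lit φ i).2

/-- The next occurrence in the same clause, cyclically. -/
def nx (i : ℕ) : ℕ := 3 * (i / 3) + (i % 3 + 1) % 3

/-- Number of men (and of women): gadgets `g < 2 * n3`, with men and women `2 g`, `2 g + 1`.
Gadgets `g < n3` are the occurrences, the others are for variables. -/
def NN (φ : CNF) : ℕ := 4 * n3 φ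

/-- Beginning of the list of man `x`. -/
def topM (φ : CNF) (x : ℕ) : List ℕ :=
  if x % 2 = 0 ∧ x / 2 < n3 φ then [2 * (x / 2), 2 * nx (x / 2) + 1, 2 * (x / 2) + 1]
  else [2 * (x / 2), 2 * (x / 2) + 1]

/-- The men `a'_i`, `i` an occurrence with sign `s` of the variable with gadget `g`. -/
def occ (φ : CNF) (g : ℕ) (s : Bool) : List ℕ :=
  ((List.range (n3 φ)).filter fun i => decide (vr φ i = g) && decide ((lit φ i).1 = s)).map
    fun i => 2 * i + 1

/-- Beginning of the list of woman `x`. -/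
def topW (φ : CNF) (x : ℕ) : List ℕ :=
  if x / 2 < n3 φ then
    (if x % 2 = 0 then [2 * (x / 2), 2 * (x / 2) + 1]
      else [2 * (x / 2), 2 * vr φ (x / 2) + 1, 2 * (x / 2) + 1])
  else 2 * (x / 2) :: (occ φ (x / 2) (decide (x % 2 = 0)) ++ [2 * (x / 2) + 1])

/-- The full preference list with beginning `t`: the others follow in increasing order. -/
def full (n : ℕ) (t : List ℕ) : List ℕ := t ++ (List.range n).filter fun z => decide (z ∉ t)

/-- The instance built from a formula. -/
def red (φ : CNF) : Inst :=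
  ((List.range (NN φ)).map fun x => full (NN φ) (topM φ x),
    (List.range (NN φ)).map fun x => full (NN φ) (topW φ x))

/-- `y` comes before `z` in the full list with beginning `t`. -/
def Lt (t : List ℕ) (y z : ℕ) : Prop :=
  t.idxOf y < t.idxOf z ∨ (t.idxOf y = t.idxOf z ∧ y < z)

/-! ## Steps -/

/-- The full lists. -/
def S_ORD : Prop := ∀ (n : ℕ) (t : List ℕ), t.Nodup → (∀ x ∈ t, x < n) →
  (full n t).Perm (List.range n) ∧
  ∀ y < n, ∀ z < n, (Before (full n t) y z ↔ Lt t y z)

/-- Basic facts. -/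
def S_TOP : Prop := ∀ φ : CNF, n3 φ = 3 * φ.length ∧
  (∀ i < n3 φ, n3 φ ≤ vr φ i ∧ vr φ i < 2 * n3 φ ∧ nx i < n3 φ ∧ nx i ≠ i) ∧
  ∀ x < NN φ, (topM φ x).Nodup ∧ (∀ y ∈ topM φ x, y < NN φ) ∧
    (topW φ x).Nodup ∧ (∀ y ∈ topW φ x, y < NN φ)

/-- The instance is valid, and its lists. -/
def S_VAL : Prop := ∀ φ : CNF, Valid (red φ) ∧ (red φ).1.length = NN φ ∧
  ∀ x < NN φ, ∀ y < NN φ, ∀ z < NN φ,
    (Before (prefs (red φ) (true, x)) y z ↔ Lt (topM φ x) y z) ∧
    (Before (prefs (red φ) (false, x)) y z ↔ Lt (topW φ x) y z)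

/-- `f` and `g` are inverse permutations of the numbers `< n`. -/
structure IsM (n : ℕ) (f g : ℕ → ℕ) : Prop where
  fl : ∀ i < n, f i < n
  gl : ∀ i < n, g i < n
  gf : ∀ i < n, g (f i) = i
  fg : ∀ i < n, f (g i) = i

def S_PERM : Prop := ∀ (n : ℕ) (M : List ℕ), M.Perm (List.range n) →
  IsM n (fun i => M.getD i 0) (fun j => M.idxOf j)

/-- Coalitions of two and three agents. -/
def S_COAL : Prop := ∀ (I : Inst) (M : List ℕ), CES I M →
  (∀ a b : Agt, a.2 < I.1.length → b.2 < I.1.length → a ≠ b →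
    ¬ (Envy I M a b ∧ Envy I M b a)) ∧
  ∀ a b c : Agt, a.2 < I.1.length → b.2 < I.1.length → c.2 < I.1.length → a ≠ b → b ≠ c →
    a ≠ c → ¬ (Envy I M a b ∧ Envy I M b c ∧ Envy I M c a)

/-- A potential excludes coalitions. -/
def S_CYC : Prop := ∀ (I : Inst) (M : List ℕ) (r : Agt → ℕ),
  M.Perm (List.range I.1.length) →
  (∀ a b : Agt, a.2 < I.1.length → b.2 < I.1.length → Envy I M a b → r b < r a) → CES I M

/-- Matchings without exchanging pairs are internal to the gadgets. -/
def S_INT : Prop := ∀ (φ : CNF) (f g : ℕ → ℕ), IsM (NN φ) f g →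
  (∀ x < NN φ, ∀ y < NN φ, ¬ (Lt (topM φ x) (f y) (f x) ∧ Lt (topM φ y) (f x) (f y))) →
  (∀ x < NN φ, ∀ y < NN φ, ¬ (Lt (topW φ x) (g y) (g x) ∧ Lt (topW φ y) (g x) (g y))) →
  ∀ x < NN φ, f x / 2 = x / 2

/-- Soundness, for the functions. -/
def S_SND : Prop := ∀ (φ : CNF) (f g : ℕ → ℕ), IsM (NN φ) f g →
  (∀ x < NN φ, f x / 2 = x / 2) →
  (∀ x < NN φ, ∀ y < NN φ, ¬ (Lt (topW φ x) (g y) (g x) ∧ Lt (topW φ y) (g x) (g y))) →
  (∀ x < NN φ, ∀ y < NN φ, ∀ z < NN φ, x ≠ y → y ≠ z → x ≠ z →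
    ¬ (Lt (topM φ x) (f y) (f x) ∧ Lt (topM φ y) (f z) (f y) ∧ Lt (topM φ z) (f x) (f z))) →
  (∀ c < φ.length, ∃ k < 3, f (2 * (3 * c + k)) = 2 * (3 * c + k)) ∧
  ∀ i < n3 φ, f (2 * i) = 2 * i → (f (2 * vr φ i) = 2 * vr φ i ↔ (lit φ i).1 = true)

/-- Reading off a satisfying assignment. -/
def S_ASG : Prop := ∀ (φ : CNF) (T : ℕ → Prop),
  (∀ c < φ.length, ∃ k < 3, T (3 * c + k)) →
  (∀ i < n3 φ, T i → (T (vr φ i) ↔ (lit φ i).1 = true)) → SAT3 φ

def S_SOUND : Prop := ∀ (φ : CNF) (M : List ℕ), CES (red φ) M → SAT3 φ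

/-- The partner of `x` when the gadget states are given by `st` (`true`: `2g` with `2g` and
`2g+1` with `2g+1`; `false`: crossed). -/
def fl (st : ℕ → Bool) (x : ℕ) : ℕ := if st (x / 2) then x else 2 * (x / 2) + (1 - x % 2)

/-- The matching with the gadget states `st`. -/
def mt (st : ℕ → Bool) (n : ℕ) : List ℕ := (List.range n).map (fl st)

def S_MT : Prop := ∀ (st : ℕ → Bool) (n : ℕ), (mt st (2 * n)).Perm (List.range (2 * n)) ∧
  ∀ x < 2 * n, (mt st (2 * n)).getD x 0 = fl st x ∧ (mt st (2 * n)).idxOf x = fl st x ∧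
    fl st x < 2 * n

/-- Rank of the man holding woman `w`. -/
def rM (φ : CNF) (st : ℕ → Bool) (w : ℕ) : ℕ :=
  if w % 2 = 0 then 0 else if n3 φ ≤ w / 2 then 1 else if st (w / 2) then 1
  else if st (nx (w / 2)) then 2 else 3

/-- Rank of the woman holding man `w`. -/
def rW (φ : CNF) (st : ℕ → Bool) (w : ℕ) : ℕ :=
  if w % 2 = 0 then 0 else if n3 φ ≤ w / 2 then 2 else if st (w / 2) then 3 else 1

def S_MR : Prop := ∀ (φ : CNF) (st : ℕ → Bool),
  (∀ c < φ.length, ∃ k < 3, st (3 * c + k) = true) →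
  ∀ x < NN φ, ∀ w < NN φ, Lt (topM φ x) w (fl st x) → rM φ st w < rM φ st (fl st x)

def S_WR : Prop := ∀ (φ : CNF) (st : ℕ → Bool),
  (∀ i < n3 φ, (st i = true ↔ st (vr φ i) = (lit φ i).1)) →
  ∀ x < NN φ, ∀ w < NN φ, Lt (topW φ x) w (fl st x) → rW φ st w < rW φ st (fl st x)

/-- States from a satisfying assignment. -/
def S_STT : Prop := ∀ φ : CNF, SAT3 φ → ∃ st : ℕ → Bool,
  (∀ c < φ.length, ∃ k < 3, st (3 * c + k) = true) ∧
  ∀ i < n3 φ, (st i = true ↔ st (vr φ i) = (lit φ i).1)

def S_COMPL : Prop := ∀ φ : CNF, SAT3 φ → ∃ M, CES (red φ) M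

def S_POLY : Prop := NPC.Poly red

/-- A finite relation without cycles of distinct elements has a rank function. -/
def S_RANK : Prop := ∀ (n : ℕ) (R : ℕ → ℕ → Prop), (∀ i, ¬ R i i) →
  (¬ ∃ (k : ℕ) (a : ZMod k → ℕ), 2 ≤ k ∧ Function.Injective a ∧ (∀ i, a i < n) ∧
    ∀ i, R (a i) (a (i + 1))) →
  ∃ r : ℕ → ℕ, (∀ i, r i ≤ n) ∧ ∀ i < n, ∀ j < n, R i j → r j < r i

/-- The certificates: a matching, ranks of the men, ranks of the women. -/
abbrev Cert : Type := List ℕ × List ℕ × List ℕ

/-- Validity test. -/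
def valB (I : Inst) : Bool :=
  decide (I.2.length = I.1.length) && (I.1 ++ I.2).all fun l =>
    decide (l.length = I.1.length) && (List.range I.1.length).all fun i => decide (i ∈ l)

/-- Test of one side: `L` the lists, `p` the partners, `r` the ranks. -/
def sideB (n : ℕ) (L : List (List ℕ)) (p r : List ℕ) : Bool :=
  (List.range n).all fun i => (List.range n).all fun j =>
    !(decide ((L.getD i []).idxOf (p.getD j 0) < (L.getD i []).idxOf (p.getD i 0))) ||
      decide (r.getD j 0 < r.getD i 0)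

/-- The verifier. -/
def verB (q : Inst × Cert) : Bool :=
  valB q.1 && decide (q.2.1.length = q.1.1.length) &&
    ((List.range q.1.1.length).all fun i => decide (i ∈ q.2.1)) &&
    sideB q.1.1.length q.1.1 q.2.1 q.2.2.1 &&
    sideB q.1.1.length q.1.2 ((List.range q.1.1.length).map fun j => q.2.1.idxOf j) q.2.2.2

def S_VALB : Prop := ∀ I : Inst, valB I = true ↔ Valid I

def S_VER : Prop := ∀ (I : Inst) (c : Cert), verB (I, c) = true → Valid I ∧ CES I c.1

/-- Certificates of bounded size exist. -/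
def S_CERT : Prop := ∀ (I : Inst) (M : List ℕ), Valid I → CES I M →
  ∃ rm rw : List ℕ, verB (I, (M, rm, rw)) = true ∧ M.length = I.1.length ∧
    rm.length = I.1.length ∧ rw.length = I.1.length ∧
    (∀ x ∈ M, x ≤ I.1.length) ∧ (∀ x ∈ rm, x ≤ I.1.length) ∧ ∀ x ∈ rw, x ≤ I.1.length

def S_PVER : Prop := NPC.Poly verB

def S_MEM : Prop := InNPP (fun I : Inst => Valid I ∧ ∃ M, CES I M)

end Pool.Agent.W973.CES
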