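import Pool.Agent.W973.CES.Defs

/-!
# Coalition-exchange-stable matchings: consequences of stability for internal matchings
-/

set_option autoImplicit false

namespace Pool.Agent.W973.CES

open Pool.Agent.NPC

theorem lt_last {l : List ℕ} {w z : ℕ} (hw : w ∈ l) (hz : z ∉ l) : Lt (l ++ [z]) w z := by
  left
  rw [List.idxOf_append_of_mem hw, List.idxOf_append_of_notMem hz]
  have := List.idxOf_lt_length_of_mem hw
  omega

theorem mem_occ {φ : CNF} {g : ℕ} {s : Bool} {w : ℕ} :
    w ∈ occ φ g s ↔ ∃ i < n3 φ, vr φ i = g ∧ (lit φ i).1 = s ∧ 2 * i + 1 = w := by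
  unfold occ
  simp only [List.mem_map, List.mem_filter, List.mem_range, Bool.and_eq_true, decide_eq_true_eq]
  constructor
  · rintro ⟨i, ⟨h1, h2, h3⟩, h4⟩
    exact ⟨i, h1, h2, h3, h4⟩
  · rintro ⟨i, h1, h2, h3, h4⟩
    exact ⟨i, ⟨h1, h2, h3⟩, h4⟩

theorem snd (h : S_TOP) : S_SND := by
  intro φ f g hM hint hW hT
  obtain ⟨hn, hi, -⟩ := h φ
  have hNN : NN φ = 4 * n3 φ := rfl
  have hf2 : ∀ G < 2 * n3 φ, (f (2 * G) = 2 * G ∧ f (2 * G + 1) = 2 * G + 1) ∨
      (f (2 * G) = 2 * G + 1 ∧ f (2 * G + 1) = 2 * G) := by
    intro G hG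
    have a1 := hint (2 * G) (by omega)
    have a2 := hint (2 * G + 1) (by omega)
    have g1 := hM.gf (2 * G) (by omega)
    have g2 := hM.gf (2 * G + 1) (by omega)
    have hne : f (2 * G) ≠ f (2 * G + 1) := by
      intro e
      rw [e, g2] at g1
      omega
    omega
  constructor
  · intro c hc
    by_contra hcon
    push Not at hcon
    have e0 : nx (3 * c) = 3 * c + 1 := by unfold nx; omega
    have e1 : nx (3 * c + 1) = 3 * c + 2 := by unfold nx; omega
    have e2 : nx (3 * c + 2) = 3 * c := by unfold nx; omega
    have key : ∀ i < n3 φ, nx i ≠ i → Lt (topM φ (2 * i)) (2 * nx i + 1) (2 * i + 1) := by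
      intro i hin hne
      have ht : topM φ (2 * i) = [2 * i, 2 * nx i + 1] ++ [2 * i + 1] := by
        have hd : 2 * i / 2 = i := by omega
        unfold topM
        rw [hd, if_pos ⟨by omega, hin⟩]
        rfl
      rw [ht]
      apply lt_last
      · simp
      · simp only [List.mem_cons, List.not_mem_nil, or_false]
        omega
    have hk : ∀ k < 3, f (2 * (3 * c + k)) = 2 * (3 * c + k) + 1 := by
      intro k hk
      have h1 := hcon k hk
      have h2 := hf2 (3 * c + k) (by omega)
      omega
    have f0 := hk 0 (by omega)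
    have f1 := hk 1 (by omega)
    have f2 := hk 2 (by omega)
    have k0 := key (3 * c) (by omega) (by omega)
    have k1 := key (3 * c + 1) (by omega) (by omega)
    have k2 := key (3 * c + 2) (by omega) (by omega)
    rw [e0] at k0
    rw [e1] at k1
    rw [e2] at k2
    rw [Nat.add_zero] at f0
    refine hT (2 * (3 * c)) (by omega) (2 * (3 * c + 1)) (by omega) (2 * (3 * c + 2)) (by omega)
      (by omega) (by omega) (by omega) ⟨?_, ?_, ?_⟩
    · rw [f0, f1]; exact k0
    · rw [f1, f2]; exact k1
    · rw [f2, f0]; exact k2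
  · intro i hin hTi
    obtain ⟨hv1, hv2, -, -⟩ := hi i hin
    set v := vr φ i with hv
    have hgi : g (2 * i + 1) = 2 * i + 1 := by
      have h1 := hf2 i (by omega)
      have h2 : f (2 * i + 1) = 2 * i + 1 := by omega
      have h3 := hM.gf (2 * i + 1) (by omega)
      rwa [h2] at h3
    have hL1 : Lt (topW φ (2 * i + 1)) (2 * v + 1) (2 * i + 1) := by
      have ht : topW φ (2 * i + 1) = [2 * i, 2 * v + 1] ++ [2 * i + 1] := by
        have hd : (2 * i + 1) / 2 = i := by omega
        unfold topW
        rw [hd, if_pos hin, if_neg (by omega), ← hv]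
        rfl
      rw [ht]
      apply lt_last
      · simp
      · simp only [List.mem_cons, List.not_mem_nil, or_false]
        omega
    have hocc : ∀ s, 2 * v + 1 ∉ 2 * v :: occ φ v s := by
      intro s hs
      rw [List.mem_cons, mem_occ] at hs
      rcases hs with hs | ⟨j, hj, -, -, hs⟩ <;> omega
    have hvd := hf2 v hv2
    constructor
    · intro hTv
      by_contra hneg
      have hneg' : (lit φ i).1 = false := by simpa using hneg
      have hgv : g (2 * v + 1) = 2 * v + 1 := by
        have h2 : f (2 * v + 1) = 2 * v + 1 := by omega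
        have h3 := hM.gf (2 * v + 1) (by omega)
        rwa [h2] at h3
      have hL2 : Lt (topW φ (2 * v + 1)) (2 * i + 1) (2 * v + 1) := by
        have ht : topW φ (2 * v + 1) = (2 * v :: occ φ v false) ++ [2 * v + 1] := by
          have hd : (2 * v + 1) / 2 = v := by omega
          have hdd : decide ((2 * v + 1) % 2 = 0) = false := by
            rw [decide_eq_false_iff_not]; omega
          unfold topW
          rw [hd, if_neg (by omega), hdd]
          rfl
        rw [ht]
        apply lt_last _ (hocc false)
        rw [List.mem_cons, mem_occ]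
        exact Or.inr ⟨i, hin, rfl, hneg', rfl⟩
      exact hW (2 * i + 1) (by omega) (2 * v + 1) (by omega) ⟨by rw [hgi, hgv]; exact hL1,
        by rw [hgi, hgv]; exact hL2⟩
    · intro hpos
      by_contra hFv
      have hgv : g (2 * v) = 2 * v + 1 := by
        have h2 : f (2 * v + 1) = 2 * v := by omega
        have h3 := hM.gf (2 * v + 1) (by omega)
        rwa [h2] at h3
      have hL2 : Lt (topW φ (2 * v)) (2 * i + 1) (2 * v + 1) := by
        have ht : topW φ (2 * v) = (2 * v :: occ φ v true) ++ [2 * v + 1] := by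
          have hd : (2 * v) / 2 = v := by omega
          have hdd : decide ((2 * v) % 2 = 0) = true := by
            rw [decide_eq_true_eq]; omega
          unfold topW
          rw [hd, if_neg (by omega), hdd]
          rfl
        rw [ht]
        apply lt_last _ (hocc true)
        rw [List.mem_cons, mem_occ]
        exact Or.inr ⟨i, hin, rfl, hpos, rfl⟩
      exact hW (2 * i + 1) (by omega) (2 * v) (by omega) ⟨by rw [hgi, hgv]; exact hL1,
        by rw [hgi, hgv]; exact hL2⟩

end Pool.Agent.W973.CES
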