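import Pool.Agent.W428.CES.Ord
import Pool.Agent.W15.CES.Top
import Pool.Agent.W883.CES.Val
import Pool.Agent.W140.CES.Perm
import Pool.Agent.W551.CES.Coal
import Pool.Agent.W577.CES.Cyc
import Pool.Agent.W853.CES.INT
import Pool.Agent.W270.CES.Asg
import Pool.Agent.W740.CES.SOUND
import Pool.Agent.W479.CES.MT
import Pool.Agent.W701.CES.MR
import Pool.Agent.W371.CES.WR
import Pool.Agent.W765.CES.STT
import Pool.Agent.W638.CES.COMPL
import Pool.Agent.W891.CES.Poly
import Pool.Agent.W2.CES.Rank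
import Pool.Agent.W881.CES.ValB
import Pool.Agent.W657.CES.Ver
import Pool.Agent.W661.CES.Cert
import Pool.Agent.W414.CES.PVer
import Pool.Agent.W904.CES.Mem
import Pool.Agent.W973.CES.Snd

/-!
# Coalition-exchange-stable matchings: assembly
-/

set_option autoImplicit false

namespace Pool.Agent.W973.CES

open Pool.Agent.NPC Pool.Agent.H673R2

theorem ptop : S_TOP := W15.CES.top
theorem pval : S_VAL := W883.CES.val W428.CES.Ord.ord ptop

theorem psound (hs : S_SND) : S_SOUND :=
  W740.CES.sound pval W140.CES.perm W551.CES.coal (W853.CES.int ptop) hs W270.CES.asg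

theorem pcompl : S_COMPL :=
  W638.CES.compl pval W577.CES.cyc W479.CES.mtT (W701.CES.mr ptop) (W371.CES.wr ptop)
    (W765.CES.stt ptop)

theorem pmem : S_MEM :=
  W904.CES.mem (W657.CES.ver W881.CES.valBT W577.CES.cyc) (W661.CES.cert W881.CES.valBT W2.CES.rank)
    W414.CES.pver

theorem phard (hs : S_SND) : NPHardOn Valid (fun I : Inst => ∃ M, CES I M) :=
  npHardOn_of hardI_SAT3.toHardPr W891.CES.poly (fun φ _ => (pval φ).1)
    (fun φ _ => ⟨pcompl φ, fun ⟨M, hM⟩ => psound hs φ M hM⟩)

end Pool.Agent.W973.CES
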